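import Pool.Agent.Helper211.Hof.Main

/-!
Residue classes of Hofstadter's set (generated from `2, 3` by `a b - 1`): every residue class
modulo `M` contains an element of the set, except the classes which lie in `1` modulo `3`
(when `3` divides `M`).
-/

set_option autoImplicit false

namespace Y793.Hof

open Hof211

lemma hofN_ge {n : ℕ} (h : HofN n) : 2 ≤ n := by
  induction h with
  | two => exact le_rfl
  | three => norm_num
  | mul _ _ hx hy =>
    have := Nat.mul_le_mul hx hy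
    omega

/-- The residue class `r` modulo `M` contains an element of the set. -/
def R (M : ℕ) (r : ZMod M) : Prop := ∃ n : ℕ, HofN n ∧ (n : ZMod M) = r

lemma R_mul {M a : ℕ} (ha : HofN a) {r : ZMod M} (hr : R M r) : R M ((a : ZMod M) * r - 1) := by
  obtain ⟨n, hn, rfl⟩ := hr
  refine ⟨a * n - 1, HofN.mul ha hn, ?_⟩
  have h1 : 1 ≤ a * n := by
    have := Nat.mul_le_mul (hofN_ge ha) (hofN_ge hn)
    omega
  push_cast [Nat.cast_sub h1]
  ring

lemma three_pow (k : ℕ) : ∃ a : ℕ, HofN a ∧ 2 * a = 3 ^ (k + 1) + 1 := by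
  induction k with
  | zero => exact ⟨2, HofN.two, by norm_num⟩
  | succ k ih =>
    obtain ⟨a, ha, h⟩ := ih
    refine ⟨3 * a - 1, HofN.mul HofN.three ha, ?_⟩
    have h2 := hofN_ge ha
    have h3 : 3 ^ (k + 1 + 1) = 3 * 3 ^ (k + 1) := by ring
    omega

lemma exists_good (M : ℕ) (hM : M ≠ 0) :
    ∃ a g : ℕ, HofN a ∧ Nat.Coprime a M ∧ a = 2 + 3 * g ∧ Nat.Coprime g M := by
  obtain ⟨e, m, hm, rfl⟩ := Nat.exists_eq_pow_mul_and_not_dvd hM 3 (by norm_num)
  have hm0 : m ≠ 0 := by rintro rfl; simp at hm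
  have hc3 : Nat.Coprime 3 m := (Nat.Prime.coprime_iff_not_dvd Nat.prime_three).2 hm
  have hc : Nat.Coprime 3 (2 * m) := Nat.Coprime.mul_right (by norm_num) hc3
  have hE := Nat.ModEq.pow_totient hc
  have hpos : 0 < Nat.totient (2 * m) := Nat.totient_pos.2 (by positivity)
  set f := Nat.totient (2 * m) with hf
  have hE2 : 3 ^ (2 * f) ≡ 1 [MOD 2 * m] := by
    have := hE.pow 2
    rw [one_pow, ← pow_mul, mul_comm f 2] at this
    exact this
  obtain ⟨t, ht⟩ : ∃ t, 2 * f = t + 2 := ⟨2 * f - 2, by omega⟩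
  rw [ht] at hE2
  obtain ⟨a, ha, h2a⟩ := three_pow (t + 1)
  have h2a' : 2 * a = 3 ^ (t + 2) + 1 := h2a
  have hge := hofN_ge ha
  -- `m ∣ a - 1`
  have hd : 2 * m ∣ 3 ^ (t + 2) - 1 :=
    (Nat.modEq_iff_dvd' (Nat.one_le_pow _ _ (by norm_num))).1 hE2.symm
  have hd2 : m ∣ a - 1 := by
    have h3 : 3 ^ (t + 2) - 1 = 2 * (a - 1) := by omega
    rw [h3] at hd
    exact Nat.dvd_of_mul_dvd_mul_left (by norm_num) hd
  -- `g`
  obtain ⟨s, hs, h2s⟩ := three_pow t
  obtain ⟨g, hg⟩ : ∃ g, s = g + 1 := ⟨s - 1, by have := hofN_ge hs; omega⟩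
  have h4 : 3 ^ (t + 2) = 3 * 3 ^ (t + 1) := by ring
  have hag : a = 2 + 3 * g := by omega
  have h3g : ¬ 3 ∣ g := by
    intro h
    have h5 : 3 ^ (t + 1) = 3 * 3 ^ t := by ring
    obtain ⟨c, rfl⟩ := h
    omega
  have h3a : ¬ 3 ∣ a := by
    intro h
    omega
  have ham : Nat.Coprime a m := by
    have h6 : Nat.gcd a m ∣ a - 1 := (Nat.gcd_dvd_right a m).trans hd2
    have h7 : Nat.gcd a m ∣ a - (a - 1) := Nat.dvd_sub (Nat.gcd_dvd_left a m) h6
    have h8 : a - (a - 1) = 1 := by omega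
    rw [h8] at h7
    exact Nat.dvd_one.1 h7
  have hgm : Nat.Coprime g m := by
    have h6 : Nat.gcd g m ∣ a - 1 := (Nat.gcd_dvd_right g m).trans hd2
    have h7 : Nat.gcd g m ∣ 3 * g := (Nat.gcd_dvd_left g m).mul_left 3
    have h8 : Nat.gcd g m ∣ (a - 1) - 3 * g := Nat.dvd_sub h6 h7
    have h9 : (a - 1) - 3 * g = 1 := by omega
    rw [h9] at h8
    exact Nat.dvd_one.1 h8
  refine ⟨a, g, ha, ?_, hag, ?_⟩
  · exact Nat.Coprime.mul_right
      (Nat.Coprime.pow_right _ ((Nat.Prime.coprime_iff_not_dvd Nat.prime_three).2 h3a).symm) ham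
  · exact Nat.Coprime.mul_right
      (Nat.Coprime.pow_right _ ((Nat.Prime.coprime_iff_not_dvd Nat.prime_three).2 h3g).symm) hgm

lemma shift {M : ℕ} [NeZero M] (h2 : Odd M) {a : ℕ} (ha : HofN a) (hco : Nat.Coprime a M)
    {r : ZMod M} (hr : R M r) : R M (r + ((a : ZMod M) - 2)) := by
  have ua : IsUnit (a : ZMod M) := (ZMod.isUnit_iff_coprime a M).2 hco
  have u2 : IsUnit ((2 : ℕ) : ZMod M) :=
    (ZMod.isUnit_iff_coprime 2 M).2 (Nat.coprime_two_left.2 h2)
  have u2' : IsUnit (2 : ZMod M) := by simpa using u2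
  let f : {x : ZMod M // R M x} → {x : ZMod M // R M x} := fun x =>
    ⟨(a : ZMod M) * (2 * x.1 - 1) - 1, R_mul ha (by simpa using R_mul HofN.two x.2)⟩
  have hinj : Function.Injective f := by
    intro x y hxy
    have h1 : (a : ZMod M) * (2 * x.1 - 1) - 1 = (a : ZMod M) * (2 * y.1 - 1) - 1 :=
      congrArg Subtype.val hxy
    have h2 : (a : ZMod M) * (2 * x.1 - 1) = (a : ZMod M) * (2 * y.1 - 1) := sub_left_inj.1 h1
    have h3 := ua.mul_left_cancel h2
    have h4 : (2 : ZMod M) * x.1 = 2 * y.1 := sub_left_inj.1 h3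
    exact Subtype.ext (u2'.mul_left_cancel h4)
  have hsurj : Function.Surjective f := Finite.injective_iff_surjective.1 hinj
  obtain ⟨⟨y, hy⟩, hfy⟩ := hsurj ⟨r, hr⟩
  have h5 : (a : ZMod M) * (2 * y - 1) - 1 = r := congrArg Subtype.val hfy
  have h6 : R M (((2 : ℕ) : ZMod M) * ((a : ZMod M) * y - 1) - 1) := R_mul HofN.two (R_mul ha hy)
  convert h6 using 1
  rw [← h5]
  push_cast
  ring

/-- Every admissible residue class contains an element of the set. -/
def C (M : ℕ) : Prop := ∀ n : ℤ, n % 3 ≠ 1 → R M (n : ZMod M)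

lemma C_odd {M : ℕ} (hM : M ≠ 0) (h2 : Odd M) : C M := by
  have : NeZero M := ⟨hM⟩
  obtain ⟨a, g, ha, hco, hag, hg⟩ := exists_good M hM
  have key : ∀ k : ℕ, ∀ r : ZMod M, R M r → R M (r + k * ((a : ZMod M) - 2)) := by
    intro k
    induction k with
    | zero => intro r hr; simpa using hr
    | succ k ih =>
      intro r hr
      have := shift h2 ha hco (ih r hr)
      convert this using 1
      push_cast
      ring
  have ug : IsUnit (g : ZMod M) := (ZMod.isUnit_iff_coprime g M).2 hg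
  have key2 : ∀ (v : ZMod M) (r : ZMod M), R M r → R M (r + 3 * v) := by
    intro v r hr
    obtain ⟨u, hu⟩ := ug
    have h1 := key (v * (u⁻¹ : (ZMod M)ˣ)).val r hr
    convert h1 using 2
    rw [ZMod.natCast_zmod_val, hag]
    push_cast
    rw [← hu]
    have : ((u⁻¹ : (ZMod M)ˣ) : ZMod M) * (u : ZMod M) = 1 := by simp
    linear_combination (-3 * v) * this
  intro n hn
  have h0 : n % 3 = 0 ∨ n % 3 = 2 := by omega
  rcases h0 with h0 | h0
  · obtain ⟨v, hv⟩ : ∃ v : ℤ, n = 3 + 3 * v := ⟨(n - 3) / 3, by omega⟩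
    have := key2 (v : ZMod M) ((3 : ℕ) : ZMod M) ⟨3, HofN.three, rfl⟩
    rw [hv]
    push_cast
    simpa using this
  · obtain ⟨v, hv⟩ : ∃ v : ℤ, n = 2 + 3 * v := ⟨(n - 2) / 3, by omega⟩
    have := key2 (v : ZMod M) ((2 : ℕ) : ZMod M) ⟨2, HofN.two, rfl⟩
    rw [hv]
    push_cast
    simpa using this

lemma R_iff {M : ℕ} {n : ℤ} : R M (n : ZMod M) ↔ ∃ x : ℕ, HofN x ∧ (M : ℤ) ∣ n - x := by
  constructor
  · rintro ⟨x, hx, h⟩
    refine ⟨x, hx, ?_⟩
    rw [← ZMod.intCast_zmod_eq_zero_iff_dvd]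
    push_cast
    rw [h]; ring
  · rintro ⟨x, hx, h⟩
    refine ⟨x, hx, ?_⟩
    rw [← ZMod.intCast_zmod_eq_zero_iff_dvd] at h
    push_cast at h
    exact (sub_eq_zero.1 h).symm

lemma C_double {M : ℕ} (hM : M ≠ 0) (h3 : 3 ∣ M) (hC : C M) : C (2 * M) := by
  have hodd : ∀ n : ℤ, n % 3 ≠ 1 → n % 2 = 1 → R (2 * M) (n : ZMod (2 * M)) := by
    intro n hn hn2
    obtain ⟨l, rfl⟩ : ∃ l : ℤ, n = 2 * l - 1 := ⟨(n + 1) / 2, by omega⟩
    have h1 := hC l (by omega)
    rw [R_iff] at h1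
    obtain ⟨x, hx, y, hy⟩ := h1
    rw [R_iff]
    refine ⟨2 * x - 1, HofN.mul HofN.two hx, y, ?_⟩
    have := hofN_ge hx
    have h4 : ((2 * x - 1 : ℕ) : ℤ) = 2 * x - 1 := by
      have : 1 ≤ 2 * x := by omega
      push_cast [Nat.cast_sub this]
      ring
    rw [h4]
    push_cast
    linarith [hy]
  intro n hn
  rcases Int.emod_two_eq_zero_or_one n with he | ho
  · obtain ⟨a, g, ha, hco, hag, hg⟩ := exists_good (2 * M) (by positivity)
    have hic : IsCoprime (a : ℤ) ((2 * M : ℕ) : ℤ) := Nat.isCoprime_iff_coprime.2 hco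
    obtain ⟨u, v, huv⟩ := hic
    obtain ⟨q, rfl⟩ := h3
    -- `n' = u (n + 1)`
    have h1 : (a : ℤ) * (u * (n + 1)) = (n + 1) - ((2 * (3 * q) : ℕ) : ℤ) * (v * (n + 1)) := by
      linear_combination (n + 1) * huv
    have h2 : (a : ℤ) * (u * (n + 1)) = (n + 1) - 6 * (q * (v * (n + 1))) := by
      rw [h1]; push_cast; ring
    have h3 : (u * (n + 1)) % 2 = 1 := by
      rcases Int.emod_two_eq_zero_or_one (u * (n + 1)) with h | h
      · exfalso
        obtain ⟨c, hc⟩ : ∃ c, u * (n + 1) = 2 * c := ⟨(u * (n + 1)) / 2, by omega⟩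
        rw [hc] at h2
        have : (a : ℤ) * (2 * c) = 2 * (a * c) := by ring
        rw [this] at h2
        omega
      · exact h
    have h4 : (u * (n + 1)) % 3 ≠ 1 := by
      intro h
      obtain ⟨c, hc⟩ : ∃ c, u * (n + 1) = 3 * c + 1 := ⟨(u * (n + 1)) / 3, by omega⟩
      rw [hc, hag] at h2
      have : (((2 + 3 * g : ℕ) : ℤ)) * (3 * c + 1) = 3 * (2 * c + 3 * g * c + g) + 2 := by
        push_cast; ring
      rw [this] at h2
      omega
    have h5 := R_mul ha (hodd _ h4 h3)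
    have h6 : (((a : ℤ) * (u * (n + 1)) - 1 : ℤ) : ZMod (2 * (3 * q))) = (n : ZMod (2 * (3 * q))) := by
      rw [h1]
      push_cast
      have hz : ((2 * (3 * q) : ℕ) : ZMod (2 * (3 * q))) = 0 := ZMod.natCast_self _
      push_cast at hz
      rw [hz]
      ring
    rw [← h6]
    push_cast
    push_cast at h5
    exact h5
  · exact hodd n hn ho

theorem C_all {M : ℕ} (hM : M ≠ 0) (h3 : 3 ∣ M) : C M := by
  obtain ⟨k, m, hm, rfl⟩ := Nat.exists_eq_two_pow_mul_odd hM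
  have hm0 : m ≠ 0 := by rintro rfl; simp at hm
  have h3m : 3 ∣ m := by
    refine Nat.Coprime.dvd_of_dvd_mul_left ?_ h3
    exact Nat.Coprime.pow_right _ (by norm_num)
  clear h3 hM
  induction k with
  | zero => simpa using C_odd hm0 hm
  | succ k ih =>
    have h := C_double (M := 2 ^ k * m) (by positivity) (h3m.mul_left _) ih
    have e : 2 ^ (k + 1) * m = 2 * (2 ^ k * m) := by ring
    rw [e]
    exact h

/-- No element of the set is `1` modulo `3`. -/
lemma mod_three {n : ℕ} (h : HofN n) : n % 3 = 0 ∨ n % 3 = 2 := by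
  induction h with
  | two => right; rfl
  | three => left; rfl
  | @mul x y hx hy ihx ihy =>
    have h1 : 1 ≤ x * y := by
      have := Nat.mul_le_mul (hofN_ge hx) (hofN_ge hy)
      omega
    have h2 : (x * y) % 3 = ((x % 3) * (y % 3)) % 3 := Nat.mul_mod _ _ _
    rcases ihx with hx' | hx' <;> rcases ihy with hy' | hy' <;> rw [hx', hy'] at h2 <;> omega

/-- A residue class modulo `m` contains an element of the set if and only if it is not contained
in the class of `1` modulo `3`. -/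
theorem exists_mem {m : ℕ} (hm : m ≠ 0) (r : ℤ) (hr : ¬ (3 ∣ m ∧ r % 3 = 1)) :
    ∃ x : ℕ, HofN x ∧ (m : ℤ) ∣ r - x := by
  obtain ⟨r', hr', hd⟩ : ∃ r' : ℤ, r' % 3 ≠ 1 ∧ (m : ℤ) ∣ r - r' := by
    by_cases h : r % 3 = 1
    · have h3 : ¬ 3 ∣ m := fun h' => hr ⟨h', h⟩
      refine ⟨r + m, ?_, ⟨-1, by ring⟩⟩
      omega
    · exact ⟨r, h, by simp⟩
  have h1 := C_all (M := 3 * m) (by positivity) (Dvd.intro _ rfl) r' hr'
  rw [R_iff] at h1
  obtain ⟨x, hx, y, hy⟩ := h1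
  refine ⟨x, hx, ?_⟩
  have h2 : (m : ℤ) ∣ r' - x := ⟨3 * y, by rw [hy]; push_cast; ring⟩
  have := dvd_add hd h2
  simpa using this

end Y793.Hof
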